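import Pool.Agent.H21.CST.S1
import Pool.Agent.H49.FOS.S1

/-!
# CST: from the process to the general form
-/

set_option autoImplicit false

namespace Pool.CST

open MvPolynomial Pool.FOS

theorem cov_empty (δ m : ℕ) : Cov δ m 0 ∅ :=
  ⟨fun i => i.elim0, fun _ _ a ha => absurd ha (Finset.notMem_empty a)⟩

theorem cov_iter (h_red : REDStmt) (δ m N : ℕ) :
    ∀ Z : Finset (Fin (δ + 1) → ℕ), (st δ m)^[N] Z = ∅ → Cov (δ + 1) m N Z := by
  induction N with
  | zero =>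
    intro Z hZ
    have h1 : Z = ∅ := hZ
    rw [h1]
    exact cov_empty _ _
  | succ N ih =>
    intro Z hZ
    rw [Function.iterate_succ_apply] at hZ
    exact h_red δ m N Z (ih _ hZ)

theorem t_cst (h_amo : AMOStmt) (h_crd : CRDStmt) (h_red : REDStmt) (h_vnt : VNTStmt)
    (h_ong : Pool.TRN.ONGStmt) (h_ter : Pool.FOS.TERStmt) (h_mon : Pool.TRN.MONStmt) :
    CSTStmt := by
  intro δ k d s hk hd hs
  have hkd : d ≤ k * d := Nat.le_mul_of_pos_left d (by omega)
  obtain ⟨t, ht, hE⟩ := h_amo δ (d + 1) (k * d + 1) (by omega) (by omega)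
  rw [h_crd (δ + 1) d, h_crd (δ + 1) (k * d)] at ht
  have hpos : 0 < (d + (δ + 1 + 1)).choose (δ + 1 + 1) := Nat.choose_pos (by omega)
  have hts : t ≤ s := Nat.le_of_mul_le_mul_right (ht.trans hs) hpos
  obtain ⟨P, hP⟩ := h_vnt (δ + 1) (d + 1) (t + XX (δ + 1) (CC δ) 1) (k * d)
    (cov_iter h_red (δ + 1) (d + 1) _ _ hE)
  exact h_mon (δ + 3) k d _ _ hk (Nat.add_le_add_right hts _)
    (h_ter (δ + 3) k d _ hk (h_ong (δ + 1) k d _ P hk hP))

end Pool.CST
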