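import Pool.Agent.H21.CST.S1
import Pool.Agent.H2.TRN.LOW
import Pool.Agent.H49.TRN.All

/-!
# CST: the lower bound and the form of the result
-/

set_option autoImplicit false

namespace Pool.CST

open MvPolynomial Pool.FOS

/-- The number of monomials of degree `D` in `p + 1` variables. -/
theorem card_mon (p D : ℕ) :
    Nat.card {m : Fin (p + 1) →₀ ℕ // m.degree = D} = (D + p).choose p := by
  have e : {m : Fin (p + 1) →₀ ℕ // m.degree = D} ≃ Sym (Fin (p + 1)) D :=
    (Equiv.subtypeEquivRight (fun m => by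
      rw [Finsupp.degree_eq_sum, Finsupp.sum_fintype _ _ (fun _ => rfl)]; rfl)).trans
      (Sym.equivNatSum (Fin (p + 1)) D).symm
  rw [Nat.card_congr e, Nat.card_eq_fintype_card, Sym.card_sym_eq_choose, Fintype.card_fin]
  have h2 : p + 1 + D - 1 = D + p := by omega
  rw [h2, ← Nat.choose_symm (show p ≤ D + p by omega)]
  congr 1
  omega

/-- **The dimension count**: fewer powers are not enough. -/
theorem low_all (p k d t : ℕ) (h : t * (d + p).choose p < (k * d + p).choose p) :
    ¬ GenLe (p + 1) k d t := by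
  refine Pool.TRN.t_low (p + 1) k d t ?_
  rw [card_mon, card_mon]
  exact h

/-- The dimension count `⌈C(k d + n - 1, n - 1) / C(d + n - 1, n - 1)⌉`, `n = p + 1`. -/
def cvn (p k d : ℕ) : ℕ := ((k * d + p).choose p + ((d + p).choose p - 1)) / (d + p).choose p

theorem cvn_ge (p k d : ℕ) : (k * d + p).choose p ≤ cvn p k d * (d + p).choose p := by
  have hc : 0 < (d + p).choose p := Nat.choose_pos (by omega)
  have h := Nat.div_add_mod ((k * d + p).choose p + ((d + p).choose p - 1)) ((d + p).choose p)
  have h2 := Nat.mod_lt ((k * d + p).choose p + ((d + p).choose p - 1)) hc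
  have h3 : cvn p k d * (d + p).choose p = (d + p).choose p *
      (((k * d + p).choose p + ((d + p).choose p - 1)) / (d + p).choose p) := Nat.mul_comm _ _
  omega

theorem cvn_lt (p k d t : ℕ) (ht : t < cvn p k d) :
    t * (d + p).choose p < (k * d + p).choose p := by
  have hc : 0 < (d + p).choose p := Nat.choose_pos (by omega)
  have h : (t + 1) * (d + p).choose p ≤ (k * d + p).choose p + ((d + p).choose p - 1) :=
    (Nat.le_div_iff_mul_le hc).1 ht
  have h1 : (t + 1) * (d + p).choose p = t * (d + p).choose p + (d + p).choose p := by ring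
  omega

theorem not_gen (p k d t : ℕ) (ht : t < cvn p k d) : ¬ GenLe (p + 1) k d t :=
  low_all p k d t (cvn_lt p k d t ht)

/-- **The generic `k`-rank is the dimension count plus at most a constant that depends only on
`n`.** -/
theorem rank_of (h : CSTStmt) (δ k d : ℕ) (hk : 1 ≤ k) (hd : 1 ≤ d) :
    ∃ r, cvn (δ + 2) k d ≤ r ∧ r ≤ cvn (δ + 2) k d + XX (δ + 1) (CC δ) 1 ∧
      Pool.TRN.GenRk (δ + 3) k d r := by
  classical
  have h1 : GenLe (δ + 3) k d (cvn (δ + 2) k d + XX (δ + 1) (CC δ) 1) :=
    h δ k d _ hk hd (cvn_ge (δ + 2) k d)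
  have hex : ∃ r, GenLe (δ + 3) k d r := ⟨_, h1⟩
  refine ⟨Nat.find hex, ?_, Nat.find_min' hex h1, Nat.find_spec hex, fun t ht =>
    Nat.find_min hex ht⟩
  by_contra hlt
  exact not_gen (δ + 2) k d _ (not_le.1 hlt) (Nat.find_spec hex)

end Pool.CST
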